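import Pool.Agent.Helper408_MT.Final

/-!
# Minimum-turn covering tours of connected solid grid graphs are NP-hard

Every language in `NP` has a polynomial-time many-one reduction to the decision problem: given a
connected solid grid graph (as the list of its vertices) and a number `k`, is there a tour (a
closed walk visiting every vertex) of turn cost at most `k`?
-/

set_option autoImplicit false

namespace Pool.Agent.Results.MP_531d8e_lc.SolidTourNPHard

open Pool.Agent.NPC Pool.Agent.Helper408_MT

/-- The decision form of the minimum-turn tour problem is `NP`-hard on connected solid grid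
graphs. -/
theorem result : ∀ L : Set (List Bool), InNP L →
    ∃ f : List Bool → List (ℤ × ℤ) × ℕ, PolyTime (fun x => bits (f x)) ∧
      (∀ x, (gridGraph (verts (f x))).Connected ∧ Solid (verts (f x))) ∧
      ∀ x, x ∈ L ↔ HasTour (verts (f x)) (f x).2 := by
  intro L hL
  obtain ⟨f, hf, h1, h2⟩ := hardPr_tour L hL
  exact ⟨f, PC.toPolyTime hf, h1, h2⟩

end Pool.Agent.Results.MP_531d8e_lc.SolidTourNPHard
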